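import Pool.Agent.PFD.StmtsD4

/-!
Squad PFD, row IDM (helper20): idempotents of a finite-dimensional commutative algebra.
-/

noncomputable section

namespace Pool.Agent.PFD.D4.H20

/-- a multiple of a non-nilpotent element which is a nonzero idempotent -/
theorem fit {Z : Type} [CommRing Z] [IsArtinianRing Z] (u : Z) (hu : ¬ IsNilpotent u) :
    ∃ f w : Z, f * f = f ∧ f ≠ 0 ∧ f = u * w := by
  obtain ⟨n, y, hy⟩ := IsArtinian.exists_pow_succ_smul_dvd u (1 : Z)
  rw [smul_eq_mul, smul_eq_mul, mul_one] at hy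
  have h1 : u ^ (n + 1) * (u * y) = u ^ (n + 1) := by
    calc u ^ (n + 1) * (u * y) = u * (u ^ (n + 1) * y) := by ring
      _ = u * u ^ n := by rw [hy]
      _ = u ^ (n + 1) := by ring
  have h2 : ∀ k : ℕ, u ^ (n + 1) * (u * y) ^ k = u ^ (n + 1) := by
    intro k
    induction k with
    | zero => rw [pow_zero, mul_one]
    | succ k ih =>
      calc u ^ (n + 1) * (u * y) ^ (k + 1) = u ^ (n + 1) * (u * y) ^ k * (u * y) := by ring
        _ = u ^ (n + 1) * (u * y) := by rw [ih]
        _ = u ^ (n + 1) := h1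
  refine ⟨(u * y) ^ (n + 1), u ^ n * y ^ (n + 1), ?_, ?_, ?_⟩
  · calc (u * y) ^ (n + 1) * (u * y) ^ (n + 1)
        = (u ^ (n + 1) * (u * y) ^ (n + 1)) * y ^ (n + 1) := by ring
      _ = u ^ (n + 1) * y ^ (n + 1) := by rw [h2 (n + 1)]
      _ = (u * y) ^ (n + 1) := by ring
  · intro h0
    apply hu
    refine ⟨n + 1, ?_⟩
    rw [← h2 (n + 1), h0, mul_zero]
  · ring

theorem idm : IdmStmt := by
  intro K Z _ _ _ _ _ x hx
  have hA : IsArtinianRing Z := IsArtinianRing.of_finite K Z
  classical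
  have hex : ∃ d : ℕ, ∃ e y : Z, e * e = e ∧ e ≠ 0 ∧ e = x * y ∧
      Module.finrank K (LinearMap.range (LinearMap.mulLeft K e)) = d := by
    obtain ⟨f, w, h1, h2, h3⟩ := fit x hx
    exact ⟨_, f, w, h1, h2, h3, rfl⟩
  obtain ⟨e, y, he1, he2, he3, hed⟩ := Nat.find_spec hex
  refine ⟨e, y, he1, he2, he3, ?_⟩
  intro z
  have hmin : ∀ f w : Z, f * f = f → f ≠ 0 → f = x * w →
      Module.finrank K (LinearMap.range (LinearMap.mulLeft K e)) ≤
        Module.finrank K (LinearMap.range (LinearMap.mulLeft K f)) := by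
    intro f w h1 h2 h3
    rw [hed]
    exact Nat.find_min' hex ⟨f, w, h1, h2, h3, rfl⟩
  obtain ⟨V, hV⟩ : ∃ V : Submodule K Z, V = LinearMap.range (LinearMap.mulLeft K e) := ⟨_, rfl⟩
  have hVm : ∀ v : Z, v ∈ V ↔ e * v = v := by
    intro v
    rw [hV, LinearMap.mem_range]
    constructor
    · rintro ⟨s, rfl⟩
      rw [LinearMap.mulLeft_apply, ← mul_assoc, he1]
    · intro h
      exact ⟨v, h⟩
  have hz : ∀ v ∈ V, LinearMap.mulLeft K z v ∈ V := by
    intro v hv
    rw [hVm] at hv ⊢
    rw [LinearMap.mulLeft_apply]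
    calc e * (z * v) = z * (e * v) := by ring
      _ = z * v := by rw [hv]
  have heV : e ∈ V := (hVm e).mpr he1
  have hnt : Nontrivial V := by
    refine ⟨⟨⟨e, heV⟩, 0, ?_⟩⟩
    intro h
    exact he2 (congrArg Subtype.val h)
  obtain ⟨k, hk⟩ := Module.End.exists_eigenvalue ((LinearMap.mulLeft K z).restrict hz)
  obtain ⟨v, hv⟩ := hk.exists_hasEigenvector
  refine ⟨k, ?_⟩
  by_contra hnil
  obtain ⟨f, w, h1, h2, h3⟩ := fit (e * z - k • e) hnil
  have hfx : f = x * (y * ((z - algebraMap K Z k) * w)) := by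
    calc f = (e * z - k • e) * w := h3
      _ = (x * y * z - k • (x * y)) * w := by rw [he3]
      _ = x * (y * ((z - algebraMap K Z k) * w)) := by
        rw [Algebra.smul_def]
        ring
  have hef : e * f = f := by
    rw [h3]
    calc e * ((e * z - k • e) * w) = (e * e * z - k • (e * e)) * w := by
          rw [Algebra.smul_def, Algebra.smul_def]
          ring
      _ = (e * z - k • e) * w := by rw [he1]
  have hle : LinearMap.range (LinearMap.mulLeft K f) ≤ V := by
    rintro _ ⟨s, rfl⟩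
    rw [hVm, LinearMap.mulLeft_apply, ← mul_assoc, hef]
  have heq : LinearMap.range (LinearMap.mulLeft K f) = V := by
    apply Submodule.eq_of_le_of_finrank_le hle
    rw [hV]
    exact hmin f _ h1 h2 hfx
  have he4 : e ∈ LinearMap.range (LinearMap.mulLeft K f) := by
    rw [heq]
    exact heV
  obtain ⟨s, hs⟩ := he4
  rw [LinearMap.mulLeft_apply] at hs
  have hv1 : z * (v : Z) = k • (v : Z) := by
    have := hv.apply_eq_smul
    have h5 := congrArg Subtype.val this
    exact h5
  have hv2 : e * (v : Z) = v := (hVm v).mp v.2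
  have hv3 : (e * z - k • e) * (v : Z) = 0 := by
    calc (e * z - k • e) * (v : Z) = e * (z * (v : Z)) - k • (e * (v : Z)) := by
          rw [Algebra.smul_def, Algebra.smul_def]
          ring
      _ = e * (k • (v : Z)) - k • (v : Z) := by rw [hv1, hv2]
      _ = k • (e * (v : Z)) - k • (v : Z) := by rw [mul_smul_comm]
      _ = 0 := by rw [hv2, sub_self]
  have hv4 : (v : Z) = 0 := by
    calc (v : Z) = e * (v : Z) := hv2.symm
      _ = f * s * v := by rw [hs]
      _ = (e * z - k • e) * w * s * v := by rw [h3]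
      _ = ((e * z - k • e) * v) * (w * s) := by ring
      _ = 0 := by rw [hv3, zero_mul]
  exact hv.2 (Subtype.ext hv4)

end Pool.Agent.PFD.D4.H20
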