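import Pool.Agent.PFD.StmtsD2c
import Pool.Agent.PFD.StmtsD2

/-!
Squad PFD, row LAT (helper20): the lift `A1` exists (assembly).
-/

open scoped BigOperators

noncomputable section

namespace Pool.Agent.PFD.D2b.H20

open MulOpposite
open Pool.Agent.PFC.B1 (BiM FS Sep)
open Pool.Agent.PFD.D2

/-- a transversal of a subgroup -/
theorem exTv {V : Type} [Group V] [Fintype V] (W : Subgroup V) :
    ∃ T : Finset V, Pool.Agent.PFC.IsTv W ⊤ T := by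
  classical
  let _ : Fintype (V ⧸ W) := Fintype.ofFinite _
  refine ⟨Finset.univ.image (fun q : V ⧸ W => q.out), fun s _ => Subgroup.mem_top s, ?_⟩
  intro p _
  refine ⟨(QuotientGroup.mk p : V ⧸ W).out, ⟨?_, ?_⟩, ?_⟩
  · exact Finset.mem_image.mpr ⟨_, Finset.mem_univ _, rfl⟩
  · have h : (QuotientGroup.mk ((QuotientGroup.mk p : V ⧸ W).out) : V ⧸ W) = QuotientGroup.mk p :=
      QuotientGroup.out_eq' _
    exact QuotientGroup.eq.mp h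
  · rintro s ⟨hs, hsp⟩
    obtain ⟨q, _, rfl⟩ := Finset.mem_image.mp hs
    have h : (QuotientGroup.mk q.out : V ⧸ W) = QuotientGroup.mk p := QuotientGroup.eq.mpr hsp
    rw [QuotientGroup.out_eq'] at h
    rw [h]

theorem lat (hBWF : BwfStmt) (hRWF : RwfStmt) (hINX : InxStmt) (hWGD : WgdStmt) (hWGF : WgfStmt)
    (hLCU : LcuStmt) (hCHF : ChfStmt) (hSPX : SpxStmt) (hLFX : LfxStmt) (hEXX : ExxStmt)
    (hLAX : LaxStmt) : LatStmt := by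
  intro R F V E A Γ _ _ _ _ _ _ _ _ ℓ c o φ W _ z _ _ _ _ bo tx hW
  have i1 : IsDomain R := o.dom
  have i2 : IsPrincipalIdealRing R := o.pid
  obtain ⟨I, fI, D, hDl, hDo⟩ := hBWF R F V E Γ ℓ c o φ W z bo
  obtain ⟨D0, hl, ho, -, -, hfib⟩ := hRWF R F Γ (CP (D0 φ z)) W I c bo.fb D
  obtain ⟨T, hT⟩ := exTv W
  obtain ⟨DG, g1, g2, g3⟩ := hWGD F V E φ W z hW T hT
  obtain ⟨Ω, fΩ, aΩ, hfr⟩ := hWGF F V E A φ W z tx T hT DG g1 g2 g3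
  obtain ⟨z1, z2, hz1, h12, h21, hz2, hlz⟩ :=
    (hLCU F (CP (Pool.Agent.PFD.D0 φ z)) W I D0).2 (E × T) DG
  have hom : ∀ w, D0.om w = DG.om w := by
    intro w
    rw [ho, g1, hDo, bo.om_q]
  obtain ⟨fr0⟩ := hCHF F (CP (Pool.Agent.PFD.D0 φ z)) W I (E × T) A Ω D0 DG z1 z2 hom hz1 hz2 h12
    hlz tx.j tx.pr hfr
  obtain ⟨BX, hBX⟩ := hINX R Γ W I Ω D
  obtain ⟨B0, hB0⟩ := hINX F (CP (Pool.Agent.PFD.D0 φ z)) W I Ω D0
  obtain ⟨sp0, s1, s2⟩ := hSPX F (CP (Pool.Agent.PFD.D0 φ z)) W I A Ω D0 B0 hB0 tx.j tx.pr tx.pr_j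
    tx.pr_l tx.pr_r fr0
  obtain ⟨fm⟩ := hfib Ω BX B0 hBX hB0
  have hL : Lft c.π BX := hLFX R Γ W I Ω D BX c.π hBX
  let _ : Fintype tx.K := tx.fK
  have hsep : Sep (CP (Pool.Agent.PFD.D0 φ z)) A tx.K sp0.j.toRingHom := by
    rw [s1]
    exact tx.sep
  obtain ⟨A1, rA1, aA1, fA1, frA1, ⟨df⟩⟩ := hEXX R F Γ (CP (Pool.Agent.PFD.D0 φ z)) A
    (I × Ω → Γ) (I × Ω → CP (Pool.Agent.PFD.D0 φ z)) tx.K c bo.fb BX B0 fm hL sp0 hsep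
  have hctr : ∀ a : CP (Pool.Agent.PFD.D0 φ z), (∀ γ, a * γ = γ * a) →
      ∃ b : Γ, (∀ γ, b * γ = γ * b) ∧ bo.fb.q b = a := by
    intro a ha
    obtain ⟨b, hb, hba⟩ := bo.ctr a (Subalgebra.mem_center_iff.mpr fun γ => (ha γ).symm)
    exact ⟨b, fun γ => (Subalgebra.mem_center_iff.mp hb γ).symm, hba⟩
  have hLA : Nonempty (LA A1 D bo.fb sp0.j sp0.pr) :=
    hLAX R F Γ (CP (Pool.Agent.PFD.D0 φ z)) A (I × Ω → CP (Pool.Agent.PFD.D0 φ z)) W I Ω A1 c D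
      bo.fb BX hBX B0 sp0 df hctr
  rw [s1, s2] at hLA
  exact ⟨I, fI, D, A1, rA1, aA1, fA1, frA1, hDl, hDo, hLA⟩

end Pool.Agent.PFD.D2b.H20
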